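import Pool.Agent.H84.LSB.TargetsHL
import Pool.Agent.H61.G.Basic

/-!
# Row HL of hlm_modules: the high-low alternative
-/

set_option autoImplicit false

namespace Pool.Agent.H86.HLM

open MeasureTheory Set
open Pool.Agent.H83.G
open Pool.Agent.H88.B2
open Pool.Agent.H84.LSB
open Pool.Agent.H61.G
open scoped ENNReal NNReal RealInnerProductSpace

variable {m : ℕ}

theorem TF_add' {F G : Z m → ℂ} (hF : TC F) (hG : TC G) (z : Z m) :
    TF (fun ζ => F ζ + G ζ) z = TF F z + TF G z := by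
  unfold TF
  rw [← integral_add (tc_int hF z) (tc_int hG z)]
  refine integral_congr_ae (ae_of_all _ fun ζ => ?_)
  simp only
  rw [mul_add]

/-- the decomposition of a real function in the first frequency -/
theorem decomp (hHKN : T_HKN) {φ₀ φ₁ : ℝ → ℝ} (h0 : ContDiff ℝ (⊤ : ℕ∞) φ₀)
    (h1 : ContDiff ℝ (⊤ : ℕ∞) φ₁) (h0s : ∀ x, φ₀ x ≠ 0 → |x| ≤ 2)
    (h1s : ∀ x, φ₁ x ≠ 0 → 1 / 2 ≤ x ∧ x ≤ 2)
    (hpu : ∀ (J : ℕ) (x : ℝ), |x| ≤ 1 →
      φ₀ (2 ^ J * x) + ∑ j ∈ Finset.range J, (φ₁ (2 ^ j * x) + φ₁ (-(2 ^ j * x))) = 1)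
    (g : Z m → ℂ) (hg : TC g) (hgs : ∀ ζ, g ζ ≠ 0 → |ζ.1| ≤ 1) (hgr : ∀ z, (TF g z).im = 0)
    (J : ℕ) (z : Z m) :
    ‖TF g z‖ ≤ ‖TF (mu1 φ₀ (2 ^ J) g) z‖ +
      2 * ∑ j ∈ Finset.range J, ‖TF (mu1 φ₁ (2 ^ j) g) z‖ := by
  have h1s' : ∀ x, φ₁ x ≠ 0 → |x| ≤ 2 := by
    intro x hx
    obtain ⟨h2, h3⟩ := h1s x hx
    rw [abs_of_nonneg (by linarith)]
    exact h3
  have h1n : ContDiff ℝ (⊤ : ℕ∞) fun x => φ₁ (-x) := h1.comp contDiff_neg
  have h1ns : ∀ x, φ₁ (-x) ≠ 0 → |x| ≤ 2 := by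
    intro x hx
    have := h1s' (-x) hx
    rwa [abs_neg] at this
  obtain ⟨_, _, k0⟩ := hHKN m 0 φ₀ h0 h0s
  obtain ⟨_, _, k1⟩ := hHKN m 0 φ₁ h1 h1s'
  obtain ⟨_, _, k2⟩ := hHKN m 0 (fun x => φ₁ (-x)) h1n h1ns
  have t0 : TC (mu1 φ₀ (2 ^ J) g) := (k0 _ g (by positivity) hg).1
  have t1 : ∀ j : ℕ, TC (mu1 φ₁ (2 ^ j) g) := fun j => (k1 _ g (by positivity) hg).1
  have t2 : ∀ j : ℕ, TC (mu1 (fun x => φ₁ (-x)) (2 ^ j) g) := fun j =>
    (k2 _ g (by positivity) hg).1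
  have t3 : ∀ j : ℕ, TC (fun ζ => mu1 φ₁ (2 ^ j) g ζ + mu1 (fun x => φ₁ (-x)) (2 ^ j) g ζ) :=
    fun j => ⟨(t1 j).1.add (t2 j).1, (t1 j).2.add (t2 j).2⟩
  have e0 : g = fun ζ => mu1 φ₀ (2 ^ J) g ζ + ∑ j ∈ Finset.range J,
      (mu1 φ₁ (2 ^ j) g ζ + mu1 (fun x => φ₁ (-x)) (2 ^ j) g ζ) := by
    funext ζ
    by_cases hζ : g ζ = 0
    · unfold mu1
      simp [hζ]
    · have h2 := hpu J ζ.1 (hgs ζ hζ)
      have h3 : mu1 φ₀ (2 ^ J) g ζ + ∑ j ∈ Finset.range J,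
          (mu1 φ₁ (2 ^ j) g ζ + mu1 (fun x => φ₁ (-x)) (2 ^ j) g ζ) =
          ((φ₀ (2 ^ J * ζ.1) + ∑ j ∈ Finset.range J,
            (φ₁ (2 ^ j * ζ.1) + φ₁ (-(2 ^ j * ζ.1))) : ℝ) : ℂ) * g ζ := by
        unfold mu1
        push_cast
        rw [add_mul, Finset.sum_mul]
        congr 1
        refine Finset.sum_congr rfl fun j _ => ?_
        ring
      rw [h3, h2]
      simp
  have e1 : TF g z = TF (mu1 φ₀ (2 ^ J) g) z + ∑ j ∈ Finset.range J,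
      (TF (mu1 φ₁ (2 ^ j) g) z + TF (mu1 (fun x => φ₁ (-x)) (2 ^ j) g) z) := by
    conv_lhs => rw [e0]
    rw [TF_add' t0 (tc_sum fun j _ => t3 j), TF_sum fun j _ => t3 j]
    congr 1
    refine Finset.sum_congr rfl fun j _ => ?_
    rw [TF_add' (t1 j) (t2 j)]
  rw [e1]
  refine (norm_add_le _ _).trans (add_le_add le_rfl ?_)
  rw [Finset.mul_sum]
  refine (norm_sum_le _ _).trans (Finset.sum_le_sum fun j _ => ?_)
  have h5 := (k1 (2 ^ j) g (by positivity) hg).2.2 hgr z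
  refine (norm_add_le _ _).trans ?_
  rw [h5]
  linarith

theorem pow_bound {δ R : ℝ} (hδ : 0 < δ) (hR : 1 ≤ R) {J : ℕ} (hJ : (2 : ℝ) ^ J ≤ R) :
    (J : ℝ) ^ 5 ≤ (10 / δ) ^ 5 * R ^ δ := by
  have h1 : (J : ℝ) * Real.log 2 ≤ Real.log R := by
    rw [← Real.log_pow]
    exact Real.log_le_log (by positivity) hJ
  have h2 : (1 / 2 : ℝ) < Real.log 2 := by
    have := Real.log_two_gt_d9
    linarith
  have h3 : Real.log R ≤ R ^ (δ / 5) / (δ / 5) := Real.log_le_rpow_div (by linarith) (by positivity)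
  have h4 : (J : ℝ) ≤ 10 / δ * R ^ (δ / 5) := by
    have h5 : (0 : ℝ) ≤ J := by positivity
    have h6 : R ^ (δ / 5) / (δ / 5) * 2 = 10 / δ * R ^ (δ / 5) := by
      field_simp
      norm_num
    nlinarith
  calc (J : ℝ) ^ 5 ≤ (10 / δ * R ^ (δ / 5)) ^ 5 := pow_le_pow_left₀ (by positivity) h4 5
    _ = (10 / δ) ^ 5 * R ^ δ := by
        rw [mul_pow, ← Real.rpow_natCast (R ^ (δ / 5)), ← Real.rpow_mul (by linarith)]
        congr 2
        push_cast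
        ring

theorem pigeon {α : Type} (X : Finset α) (J : ℕ) (hJ : 0 < J) (p : α → ℕ → Prop)
    [∀ j, DecidablePred fun z => p z j] (h : ∀ z ∈ X, ∃ j < J, p z j) :
    ∃ j < J, (X.card : ℝ) ≤ J * ((X.filter fun z => p z j).card : ℝ) := by
  classical
  have h1 : X ⊆ (Finset.range J).biUnion fun j => X.filter fun z => p z j := by
    intro z hz
    obtain ⟨j, hj, hp⟩ := h z hz
    exact Finset.mem_biUnion.2 ⟨j, Finset.mem_range.2 hj, Finset.mem_filter.2 ⟨hz, hp⟩⟩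
  have h2 : (X.card : ℝ) ≤ ∑ j ∈ Finset.range J, ((X.filter fun z => p z j).card : ℝ) := by
    have h3 := (Finset.card_le_card h1).trans Finset.card_biUnion_le
    exact_mod_cast h3
  have hJ0 : (0 : ℝ) < J := by exact_mod_cast hJ
  have h3 : ∑ _j ∈ Finset.range J, (X.card : ℝ) / J ≤
      ∑ j ∈ Finset.range J, ((X.filter fun z => p z j).card : ℝ) := by
    rw [Finset.sum_const, Finset.card_range, nsmul_eq_mul]
    refine le_trans (le_of_eq ?_) h2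
    field_simp
  obtain ⟨j, hj, hj2⟩ := Finset.exists_le_of_sum_le (Finset.nonempty_range_iff.2 hJ.ne') h3
  refine ⟨j, Finset.mem_range.1 hj, ?_⟩
  rw [div_le_iff₀ hJ0] at hj2
  linarith

theorem mu1_sum {φ : ℝ → ℝ} {w : ℝ} (P : Finset (Pk m)) (G : Pk m → Z m → ℂ) :
    mu1 φ w (fun ζ => ∑ W ∈ P, G W ζ) = fun ζ => ∑ W ∈ P, mu1 φ w (G W) ζ := by
  funext ζ
  unfold mu1
  rw [Finset.mul_sum]

theorem pf_HL (hHCH : T_HCH) (hHPU : T_HPU) (hHKN : T_HKN) (hHPT : T_HPT) (hHRE : T_HRE)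
    (hOWA : T_OWA) : T_HL := by
  classical
  intro δ hδ hδ1
  have hlo : lo 2 = 400 := by
    unfold lo
    norm_num
  obtain ⟨φ₀, φ₁, h0, h1, h0s, h1s, hpu⟩ := hHPU
  refine ⟨⌈15 / δ⌉₊ + 5, fun N hN => ?_⟩
  have hN5 : 5 ≤ N := by omega
  have hδN : 15 ≤ δ * N := by
    have h2 : 15 / δ ≤ (⌈15 / δ⌉₊ : ℝ) := Nat.le_ceil _
    have h3 : ((⌈15 / δ⌉₊ : ℕ) : ℝ) ≤ (N : ℝ) := by
      exact_mod_cast (by omega : ⌈15 / δ⌉₊ ≤ N)
    have h4 : 15 / δ ≤ N := h2.trans h3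
    rw [div_le_iff₀ hδ] at h4
    linarith
  have h1s' : ∀ x, φ₁ x ≠ 0 → |x| ≤ 2 := by
    intro x hx
    obtain ⟨h2, h3⟩ := h1s x hx
    rw [abs_of_nonneg (by linarith)]
    exact h3
  obtain ⟨Ch, hCh1, hCh⟩ := hHCH 2 N
  obtain ⟨_, _, k0⟩ := hHKN 2 0 φ₀ h0 h0s
  obtain ⟨_, _, k1⟩ := hHKN 2 0 φ₁ h1 h1s'
  obtain ⟨Cp, hCp1, hCp⟩ := hHPT 2 N φ₀ (by omega) h0 h0s
  obtain ⟨Cr, hCr1, hCr⟩ := hHRE N δ Ch φ₁ hN5 hδ hδ1 hCh1 h1 h1s
  have hCh0 : 0 < Ch := by linarith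
  have hCp0 : 0 < Cp := by linarith
  have hCr0 : 0 < Cr := by linarith
  obtain ⟨C, hC⟩ : ∃ C : ℝ, C = 2 + 16 * Cp * Ch ^ 2 + (8 * Ch) ^ 4 * (10 / δ) ^ 5 * Cr :=
    ⟨_, rfl⟩
  have hCa : 0 ≤ 16 * Cp * Ch ^ 2 := by positivity
  have hCb : 0 ≤ (8 * Ch) ^ 4 * (10 / δ) ^ 5 * Cr := by positivity
  have hC2 : 2 ≤ C := by linarith
  refine ⟨C, by linarith, ?_⟩
  intro R w M₁ M P X hR hCR hRw hwR hM₁ hM hP hPc hX hX1 hX2 hX3
  have hR0 : 0 < R := by linarith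
  have hR2 : 2 ≤ R := by
    have h2 : R ^ δ ≤ R ^ (1 : ℝ) := Real.rpow_le_rpow_of_exponent_le hR (by linarith)
    rw [Real.rpow_one] at h2
    linarith
  have hM₁0 : 0 < M₁ := lt_of_lt_of_le (by positivity) hM₁
  have hRδ : 0 < R ^ δ := by positivity
  have hRδ1 : 1 ≤ R ^ δ := by linarith
  have hw0 : 0 < w := lt_of_lt_of_le (by positivity) hRw
  -- the bumps
  choose G hG1 hG2 hG3 hG4 hG5 using fun W : Pk 2 => hCh R δ W hR hδ.le
  obtain ⟨g, hg⟩ : ∃ g : Z 2 → ℂ, g = fun ζ => ∑ W ∈ P, G W ζ := ⟨_, rfl⟩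
  have hgT : TC g := by
    rw [hg]
    exact tc_sum fun W _ => hG1 W
  have hgF : ∀ z, TF g z = ∑ W ∈ P, TF (G W) z := by
    intro z
    rw [hg]
    exact TF_sum (fun W _ => hG1 W) z
  have hgr : ∀ z, (TF g z).im = 0 := by
    intro z
    rw [hgF, Complex.im_sum]
    exact Finset.sum_eq_zero fun W _ => (hG2 W z).1
  have hgs : ∀ ζ, g ζ ≠ 0 → |ζ.1| ≤ R ^ (-δ) / 1000 := by
    intro ζ hζ
    rw [hg] at hζ
    obtain ⟨W, _, hW⟩ := Finset.exists_ne_zero_of_sum_ne_zero hζ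
    obtain ⟨ζ', h2, h3⟩ := hG5 W ζ hW
    have h4 : ζ.1 = R ^ (-δ) * ζ'.1 := by
      rw [h3]
      rfl
    have h5 : |ζ'.1| ≤ 1 / 1000 := (norm_fst_le ζ').trans h2
    have h6 : 0 < R ^ (-δ) := by positivity
    rw [h4, abs_mul, abs_of_pos h6]
    have := mul_le_mul_of_nonneg_left h5 h6.le
    linarith
  have hRm : R ^ (-δ) ≤ 1 := Real.rpow_le_one_of_one_le_of_nonpos hR (by linarith)
  have hRmul : R ^ (-δ) * R ^ δ = 1 := by
    rw [← Real.rpow_add hR0]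
    simp
  -- lower bound
  have stepA : ∀ z ∈ X, M₁ / (2 * Ch) ≤ ‖TF g z‖ := by
    intro z hz
    have h2 : Nd N R δ (R ^ δ) P z ≤ Ch * ‖TF g z‖ + P.card * R ^ (-(δ * N)) := by
      have h3 : ∀ W ∈ P, ww N R δ (R ^ δ) W z ≤ Ch * (TF (G W) z).re + R ^ (-(δ * N)) := by
        intro W _
        have h4 := (hG2 W z).2
        have h5 : 0 < R ^ (-(δ * N)) := by positivity
        by_cases hn : ‖fc R δ W.1 z - zc W.2‖ ≤ R ^ δ
        · have := hG4 W z hn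
          linarith
        · rw [not_le] at hn
          have h6 : R ^ δ < |(fc R δ W.1 z - zc W.2).1| ∨ R ^ δ < ‖(fc R δ W.1 z - zc W.2).2‖ := by
            rw [Prod.norm_def] at hn
            rcases lt_max_iff.1 hn with h7 | h7
            · exact Or.inl h7
            · exact Or.inr h7
          have h8 := (hOWA 2 N R δ W hR hδ.le).2.2.2.2.2 (R ^ δ) z hRδ h6
          have h9 : 0 ≤ Ch * (TF (G W) z).re := mul_nonneg hCh0.le h4
          linarith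
      have h10 : Nd N R δ (R ^ δ) P z ≤ ∑ W ∈ P, (Ch * (TF (G W) z).re + R ^ (-(δ * N))) :=
        Finset.sum_le_sum h3
      rw [Finset.sum_add_distrib, ← Finset.mul_sum, Finset.sum_const, nsmul_eq_mul,
        ← Complex.re_sum, ← hgF] at h10
      have h11 : (TF g z).re ≤ ‖TF g z‖ := Complex.re_le_norm _
      have := mul_le_mul_of_nonneg_left h11 hCh0.le
      linarith
    have h12 : (P.card : ℝ) * R ^ (-(δ * N)) ≤ M₁ / 2 := by
      have h13 : R ^ (-(δ * N)) ≤ R ^ (-(15 : ℝ)) :=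
        Real.rpow_le_rpow_of_exponent_le hR (by linarith)
      have h14 : R ^ (-(4 : ℝ)) ≤ M₁ := by
        refine le_trans (Real.rpow_le_rpow_of_exponent_le hR ?_) hM₁
        rw [hlo]
        linarith
      have h15 : (P.card : ℝ) * R ^ (-(δ * N)) ≤ R ^ (10 : ℝ) * R ^ (-(15 : ℝ)) := by
        refine mul_le_mul ?_ h13 (by positivity) (by positivity)
        rw [← Real.rpow_natCast] at hPc
        exact_mod_cast hPc
      have h16 : R ^ (10 : ℝ) * R ^ (-(15 : ℝ)) = R ^ (-(4 : ℝ)) * R ^ (-(1 : ℝ)) := by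
        rw [← Real.rpow_add hR0, ← Real.rpow_add hR0]
        norm_num
      have h17 : R ^ (-(1 : ℝ)) ≤ 1 / 2 := by
        rw [Real.rpow_neg_one, one_div]
        exact inv_anti₀ (by norm_num) hR2
      rw [h16] at h15
      have h18 : R ^ (-(4 : ℝ)) * R ^ (-(1 : ℝ)) ≤ M₁ * (1 / 2) :=
        mul_le_mul h14 h17 (by positivity) hM₁0.le
      linarith
    have h19 := hX1 z hz
    rw [div_le_iff₀ (by positivity)]
    linarith
  -- the number of scales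
  have hx1 : 1 ≤ w * R ^ (-δ) := by
    have h2 : R ^ δ ≤ w := by
      refine le_trans (Real.rpow_le_rpow_of_exponent_le hR ?_) hRw
      rw [hlo]
      linarith
    have h3 := mul_le_mul_of_nonneg_right h2 (by positivity : 0 ≤ R ^ (-δ))
    rw [mul_comm, hRmul] at h3
    exact h3
  obtain ⟨J, hJ1, hJ2⟩ := exists_nat_pow_near hx1 (by norm_num : (1 : ℝ) < 2)
  have hJw : (2 : ℝ) ^ J ≤ w := by
    refine hJ1.trans ?_
    have := mul_le_mul_of_nonneg_left hRm hw0.le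
    linarith
  have hJδ : R ^ δ ≤ (2 : ℝ) ^ J := by
    have h2 : R ^ (lo 2 * δ) * R ^ (-δ) ≤ w * R ^ (-δ) :=
      mul_le_mul_of_nonneg_right hRw (by positivity)
    have h3 : R ^ δ * R ^ δ ≤ R ^ (lo 2 * δ) * R ^ (-δ) := by
      rw [← Real.rpow_add hR0, ← Real.rpow_add hR0]
      refine Real.rpow_le_rpow_of_exponent_le hR ?_
      rw [hlo]
      linarith
    have h4 : (2 : ℝ) * R ^ δ ≤ R ^ δ * R ^ δ :=
      mul_le_mul_of_nonneg_right (by linarith) hRδ.le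
    rw [pow_succ] at hJ2
    linarith
  have hwR1 : w ≤ R := by
    refine hwR.trans ?_
    have h2 : R ^ (1 / 4 : ℝ) ≤ R ^ (1 : ℝ) := Real.rpow_le_rpow_of_exponent_le hR (by norm_num)
    rwa [Real.rpow_one] at h2
  -- the low part
  have stepC : ∀ z ∈ X, ‖TF (mu1 φ₀ (2 ^ J) g) z‖ ≤ M₁ / (8 * Ch) := by
    intro z hz
    have h2 : TF (mu1 φ₀ (2 ^ J) g) z = ∑ W ∈ P, TF (mu1 φ₀ (2 ^ J) (G W)) z := by
      rw [hg, mu1_sum]
      exact TF_sum (fun W _ => (k0 _ _ (by positivity) (hG1 W)).1) z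
    rw [h2]
    have h3 : ∀ W ∈ P, ‖TF (mu1 φ₀ (2 ^ J) (G W)) z‖ ≤
        Cp * Ch * (R ^ δ / 2 ^ J) * ww N R δ w W z := by
      intro W _
      refine (hCp R δ (2 ^ J) Ch W (G W) hR hδ.le hJδ hCh0.le (hG1 W) (hG3 W) z).trans ?_
      exact mul_le_mul_of_nonneg_left
        ((hOWA 2 N R δ W hR hδ.le).2.2.1 _ _ z (by positivity) hJw) (by positivity)
    have h4 : ‖∑ W ∈ P, TF (mu1 φ₀ (2 ^ J) (G W)) z‖ ≤
        Cp * Ch * (R ^ δ / 2 ^ J) * Nd N R δ w P z := by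
      refine (norm_sum_le _ _).trans ((Finset.sum_le_sum h3).trans (le_of_eq ?_))
      unfold Nd
      rw [Finset.mul_sum]
    refine h4.trans ?_
    have h5 : R ^ δ / 2 ^ J ≤ 2 * (R ^ δ * R ^ δ) / w := by
      rw [div_le_div_iff₀ (by positivity) hw0]
      have h6 : w < 2 * 2 ^ J * R ^ δ := by
        have h7 := mul_lt_mul_of_pos_right hJ2 hRδ
        rw [mul_assoc, hRmul, mul_one, pow_succ] at h7
        linarith
      have h8 := mul_le_mul_of_nonneg_left h6.le hRδ.le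
      linarith
    have h9 : 0 ≤ Nd N R δ w P z := Finset.sum_nonneg fun W _ =>
      ((hOWA 2 N R δ W hR hδ.le).2.1 w z).1.le
    have h10 : Cp * Ch * (R ^ δ / 2 ^ J) * Nd N R δ w P z ≤
        Cp * Ch * (2 * (R ^ δ * R ^ δ) / w) * Nd N R δ w P z :=
      mul_le_mul_of_nonneg_right (mul_le_mul_of_nonneg_left h5 (by positivity)) h9
    refine h10.trans ?_
    have h11 := hX3 z hz
    have h12 : R ^ δ * R ^ δ ≤ R ^ (lo 2 * δ) := by
      rw [← Real.rpow_add hR0]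
      refine Real.rpow_le_rpow_of_exponent_le hR ?_
      rw [hlo]
      linarith
    rw [le_div_iff₀ (by positivity)]
    have h13 : Cp * Ch * (2 * (R ^ δ * R ^ δ) / w) * Nd N R δ w P z * (8 * Ch) =
        (16 * Cp * Ch ^ 2) * (R ^ δ * R ^ δ) * Nd N R δ w P z / w := by
      ring
    rw [h13, div_le_iff₀ hw0]
    have h14 : (16 * Cp * Ch ^ 2) * (R ^ δ * R ^ δ) * Nd N R δ w P z ≤
        C * R ^ (lo 2 * δ) * Nd N R δ w P z := by
      refine mul_le_mul_of_nonneg_right ?_ h9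
      exact mul_le_mul (by linarith) h12 (by positivity) (by linarith)
    linarith
  -- a large part of the high frequencies
  have stepD : ∀ z ∈ X, ∃ j < J, R ^ δ ≤ 2 ^ j ∧
      M₁ / (8 * Ch * J) ≤ ‖∑ W ∈ P, TF (mu1 φ₁ (2 ^ j) (G W)) z‖ := by
    intro z hz
    have h2 := decomp hHKN h0 h1 h0s h1s hpu g hgT (fun ζ hζ => (hgs ζ hζ).trans (by linarith))
      hgr J z
    have h3 := stepA z hz
    have h4 := stepC z hz
    have h5 : M₁ / (8 * Ch) ≤ ∑ j ∈ Finset.range J, ‖TF (mu1 φ₁ (2 ^ j) g) z‖ := by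
      have h6 : M₁ / (2 * Ch) = 4 * (M₁ / (8 * Ch)) := by
        field_simp
        norm_num
      have h7 : 0 ≤ M₁ / (8 * Ch) := by positivity
      linarith
    have hJpos : 0 < J := by
      rcases Nat.eq_zero_or_pos J with h6 | h6
      · rw [h6, Finset.range_zero, Finset.sum_empty] at h5
        have : 0 < M₁ / (8 * Ch) := by positivity
        linarith
      · exact h6
    have hJ0 : (0 : ℝ) < J := by exact_mod_cast hJpos
    have h6 : ∑ _j ∈ Finset.range J, M₁ / (8 * Ch * J) ≤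
        ∑ j ∈ Finset.range J, ‖TF (mu1 φ₁ (2 ^ j) g) z‖ := by
      rw [Finset.sum_const, Finset.card_range, nsmul_eq_mul]
      refine le_trans (le_of_eq ?_) h5
      field_simp
    obtain ⟨j, hj, hj2⟩ := Finset.exists_le_of_sum_le (Finset.nonempty_range_iff.2 hJpos.ne') h6
    have h7 : TF (mu1 φ₁ (2 ^ j) g) z = ∑ W ∈ P, TF (mu1 φ₁ (2 ^ j) (G W)) z := by
      rw [hg, mu1_sum]
      exact TF_sum (fun W _ => (k1 _ _ (by positivity) (hG1 W)).1) z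
    refine ⟨j, Finset.mem_range.1 hj, ?_, by rwa [h7] at hj2⟩
    by_contra hcon
    rw [not_le] at hcon
    have h8 : mu1 φ₁ (2 ^ j) g = fun _ => 0 := by
      funext ζ
      by_contra h9
      have h10 : φ₁ (2 ^ j * ζ.1) ≠ 0 := by
        intro h11
        apply h9
        unfold mu1
        rw [h11]
        simp
      have h12 : g ζ ≠ 0 := by
        intro h11
        apply h9
        unfold mu1
        rw [h11, mul_zero]
      have h13 := hgs ζ h12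
      have h14 := (h1s _ h10).1
      have h15 : (2 : ℝ) ^ j * ζ.1 ≤ R ^ δ * (R ^ (-δ) / 1000) := by
        refine (mul_le_mul_of_nonneg_left ((le_abs_self _).trans h13) (by positivity)).trans ?_
        exact mul_le_mul_of_nonneg_right hcon.le (by positivity)
      have h16 : R ^ δ * (R ^ (-δ) / 1000) = 1 / 1000 := by
        rw [← mul_div_assoc, mul_comm (R ^ δ), hRmul]
      rw [h16] at h15
      linarith
    have h17 : TF (mu1 φ₁ (2 ^ j) g) z = 0 := by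
      rw [h8]
      unfold TF
      simp
    rw [h17, norm_zero] at hj2
    have : 0 < M₁ / (8 * Ch * J) := by positivity
    linarith
  -- the final estimate
  rcases X.eq_empty_or_nonempty with hXe | hXn
  · rw [hXe]
    simp only [Finset.card_empty, Nat.cast_zero, zero_mul]
    positivity
  have hJpos : 0 < J := by
    obtain ⟨z, hz⟩ := hXn
    obtain ⟨j, hj, -⟩ := stepD z hz
    omega
  have hJ0 : (0 : ℝ) < J := by exact_mod_cast hJpos
  obtain ⟨j, hj, hjc⟩ := pigeon X J hJpos (fun z j => R ^ δ ≤ 2 ^ j ∧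
      M₁ / (8 * Ch * J) ≤ ‖∑ W ∈ P, TF (mu1 φ₁ (2 ^ j) (G W)) z‖) stepD
  obtain ⟨Xj, hXj⟩ : ∃ Xj : Finset (Z 2), Xj = X.filter fun z => R ^ δ ≤ 2 ^ j ∧
      M₁ / (8 * Ch * J) ≤ ‖∑ W ∈ P, TF (mu1 φ₁ (2 ^ j) (G W)) z‖ := ⟨_, rfl⟩
  rw [← hXj] at hjc
  have hXjn : Xj.Nonempty := by
    rw [Finset.nonempty_iff_ne_empty]
    intro h2
    rw [h2, Finset.card_empty, Nat.cast_zero, mul_zero] at hjc
    have h3 : 0 < X.card := hXn.card_pos
    have h4 : (0 : ℝ) < X.card := by exact_mod_cast h3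
    linarith
  have hjδ : R ^ δ ≤ (2 : ℝ) ^ j := by
    obtain ⟨z, hz⟩ := hXjn
    rw [hXj, Finset.mem_filter] at hz
    exact hz.2.1
  have hjJ : (2 : ℝ) ^ j * R ^ δ ≤ w := by
    have h2 : (2 : ℝ) ^ j ≤ w * R ^ (-δ) :=
      (pow_le_pow_right₀ (by norm_num) hj.le).trans hJ1
    have h3 := mul_le_mul_of_nonneg_right h2 hRδ.le
    rwa [mul_assoc, hRmul, mul_one] at h3
  have hjw : (2 : ℝ) ^ j ≤ w := by
    refine le_trans ?_ hjJ
    exact le_mul_of_one_le_right (by positivity) hRδ1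
  have hw2 : w ^ 2 ≤ R := by
    have h2 : w ^ 2 ≤ (R ^ (1 / 4 : ℝ)) ^ 2 := pow_le_pow_left₀ hw0.le hwR 2
    have h3 : (R ^ (1 / 4 : ℝ)) ^ 2 = R ^ (1 / 2 : ℝ) := by
      rw [← Real.rpow_natCast, ← Real.rpow_mul hR0.le]
      norm_num
    have h4 : R ^ (1 / 2 : ℝ) ≤ R ^ (1 : ℝ) := Real.rpow_le_rpow_of_exponent_le hR (by norm_num)
    rw [Real.rpow_one] at h4
    rw [h3] at h2
    linarith
  obtain ⟨h, hh⟩ : ∃ h : ℝ, h = M₁ / (8 * Ch * J) := ⟨_, rfl⟩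
  have hh0 : 0 < h := by rw [hh]; positivity
  have hfin := hCr R (2 ^ j) h (R ^ (lo 2 * δ) * R ^ δ * M) P G Xj hR hjδ
    ((pow_le_pow_left₀ (by positivity) hjw 2).trans hw2) hh0 (by positivity)
    (fun W hW => ⟨(hP W hW).1, (hP W hW).2, hG1 W, hG3 W, hG5 W⟩)
    (fun z hz z' hz' => hX z (by
      rw [hXj] at hz
      exact (Finset.mem_filter.1 hz).1) z' (by
      rw [hXj] at hz'
      exact (Finset.mem_filter.1 hz').1))
    (fun z hz => by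
      rw [hXj, Finset.mem_filter] at hz
      refine ⟨by rw [hh]; exact hz.2.2, ?_⟩
      have h2 := hX2 z hz.1 (2 ^ j * R ^ δ)
        (le_mul_of_one_le_left hRδ.le (hRδ1.trans hjδ)) hjJ
      refine h2.trans (le_of_eq ?_)
      ring)
  have hM₁h : M₁ = 8 * Ch * J * h := by
    rw [hh]
    field_simp
  have f1 : (X.card : ℝ) * M₁ ^ 4 ≤ (J : ℝ) ^ 5 * (8 * Ch) ^ 4 * ((Xj.card : ℝ) * h ^ 4) := by
    rw [hM₁h]
    have h2 : (X.card : ℝ) * (8 * Ch * J * h) ^ 4 ≤ (J * (Xj.card : ℝ)) * (8 * Ch * J * h) ^ 4 :=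
      mul_le_mul_of_nonneg_right hjc (by positivity)
    refine h2.trans (le_of_eq ?_)
    ring
  have f2 := pow_bound hδ hR (hJw.trans hwR1)
  have f3 : (X.card : ℝ) * M₁ ^ 4 ≤ ((10 / δ) ^ 5 * R ^ δ) * (8 * Ch) ^ 4 *
      (Cr * R ^ (lo 2 * δ) * (R ^ (lo 2 * δ) * R ^ δ * M) * (2 ^ j) ^ 4 * P.card * R ^ 2) := by
    refine f1.trans ?_
    refine mul_le_mul ?_ hfin (mul_nonneg (Nat.cast_nonneg _) (pow_nonneg hh0.le 4))
      (mul_nonneg (mul_nonneg (pow_nonneg (by positivity) 5) hRδ.le)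
        (pow_nonneg (by positivity) 4))
    exact mul_le_mul_of_nonneg_right f2 (pow_nonneg (by positivity) 4)
  refine f3.trans ?_
  have f4 : (10 / δ) ^ 5 * R ^ δ * (8 * Ch) ^ 4 *
      (Cr * R ^ (lo 2 * δ) * (R ^ (lo 2 * δ) * R ^ δ * M) * (2 ^ j) ^ 4 * P.card * R ^ 2) =
      ((8 * Ch) ^ 4 * (10 / δ) ^ 5 * Cr) * (R ^ (lo 2 * δ) * R ^ (lo 2 * δ) * (R ^ δ * R ^ δ)) *
        (2 ^ j) ^ 4 * M * P.card * R ^ 2 := by
    ring
  rw [f4]
  have f5 : R ^ (lo 2 * δ) * R ^ (lo 2 * δ) * (R ^ δ * R ^ δ) ≤ R ^ (3 * lo 2 * δ) := by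
    rw [← Real.rpow_add hR0, ← Real.rpow_add hR0, ← Real.rpow_add hR0]
    refine Real.rpow_le_rpow_of_exponent_le hR ?_
    rw [hlo]
    linarith
  have f6 : ((2 : ℝ) ^ j) ^ 4 ≤ w ^ 4 := pow_le_pow_left₀ (by positivity) hjw 4
  have f7 : (8 * Ch) ^ 4 * (10 / δ) ^ 5 * Cr ≤ C := by linarith
  have f8 : ((8 * Ch) ^ 4 * (10 / δ) ^ 5 * Cr) *
      (R ^ (lo 2 * δ) * R ^ (lo 2 * δ) * (R ^ δ * R ^ δ)) * (2 ^ j) ^ 4 ≤
      C * R ^ (3 * lo 2 * δ) * w ^ 4 := by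
    refine mul_le_mul ?_ f6 (by positivity) (by positivity)
    exact mul_le_mul f7 f5 (by positivity) (by linarith)
  have f9 : 0 ≤ M * P.card * R ^ 2 :=
    mul_nonneg (mul_nonneg hM.le (Nat.cast_nonneg _)) (pow_nonneg hR0.le 2)
  have f10 := mul_le_mul_of_nonneg_right f8 f9
  calc _ = ((8 * Ch) ^ 4 * (10 / δ) ^ 5 * Cr) *
      (R ^ (lo 2 * δ) * R ^ (lo 2 * δ) * (R ^ δ * R ^ δ)) * (2 ^ j) ^ 4 *
        (M * P.card * R ^ 2) := by ring
    _ ≤ _ := f10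
    _ = _ := by ring

end Pool.Agent.H86.HLM
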